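import Mathlib
import Pool.Agent.Lib.MP_e5892f_al.BrinThompson
import Pool.Agent.Lib.MP_e5892f_al.Final

namespace Pool.Agent.Results.MP_e5892f_al.NoneSatisfies

open Pool.Agent.Lib.MP_e5892f_al

/-- None of the groups in the question satisfies the dynamical Tits alternative: neither the
rational group of any finite alphabet with at least two letters, nor the Brin-Thompson groups
`nV` with `n ≥ 2`, nor the automorphism groups of the Higman-Thompson groups `V_{d,k}`. -/
theorem result :
    (∀ (A : Type) [TopologicalSpace A] [DiscreteTopology A] [Finite A] [Nontrivial A],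
      ¬ DynamicalTitsAlternative (RationalGroup A)) ∧
    (∀ n : ℕ, 2 ≤ n → ¬ DynamicalTitsAlternative (BrinThompson n)) ∧
    (∀ d k : ℕ, 2 ≤ d → 1 ≤ k → ¬ DynamicalTitsAlternative (AutHigmanThompson d k)) := by
  refine ⟨?_, ?_, ?_⟩
  · intro A _ _ _ _ h
    obtain ⟨H, hH, h1, h2⟩ := rationalGroup_fails A
    exact (h H hH).elim h1 h2
  · intro n hn h
    obtain ⟨H, hH, h1, h2⟩ := brinThompson_fails n hn
    exact (h H hH).elim h1 h2
  · intro d k hd hk h
    obtain ⟨H, hH, h1, h2⟩ := autHigmanThompson_fails d k hd hk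
    exact (h H hH).elim h1 h2

end Pool.Agent.Results.MP_e5892f_al.NoneSatisfies
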